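import Pool.Agent.Lib.MP_0ea612_co.Four

/-!
# MP_0ea612_co: three quadrangles which share a hemisystem graph are not pairwise non-isomorphic

The definitions used by the statement are in `Pool/Agent/Lib/MP_0ea612_co/Defs.lean`, and
`Extends` is at the end of `Pool/Agent/Lib/MP_0ea612_co/Four.lean`: the isomorphism `φ` of the
hemisystem graphs is the restriction of an isomorphism of the quadrangles.
-/

set_option autoImplicit false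

open Pool.Agent.Lib.MP0ea612 Pool.Agent.Lib.MP0ea612.FourM

namespace Pool.Agent.Results.MP_0ea612_co.AtMostTwo

/-- Let `q ≥ 3` be odd, let `H₁, H₂, H₃` be hemisystems of quadrangles of order `(q^2, q)` and let
`φ : Γ(H₁) ≅ Γ(H₂)`, `ψ : Γ(H₁) ≅ Γ(H₃)` be isomorphisms.  Then `φ`, `ψ` or `ψ φ⁻¹` is the
restriction of an isomorphism of the quadrangles.  So three pairwise non-isomorphic quadrangles
cannot share a hemisystem graph. -/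
theorem result {P₁ L₁ P₂ L₂ P₃ L₃ : Type} (I₁ : P₁ → L₁ → Prop) (I₂ : P₂ → L₂ → Prop)
    (I₃ : P₃ → L₃ → Prop) (q : ℕ) (hq : Odd q) (hq3 : 3 ≤ q)
    (h₁ : IsGQ I₁ (q ^ 2) q) (h₂ : IsGQ I₂ (q ^ 2) q) (h₃ : IsGQ I₃ (q ^ 2) q)
    (H₁ : Set L₁) (H₂ : Set L₂) (H₃ : Set L₃) (hH₁ : IsHemisystem I₁ q H₁)
    (hH₂ : IsHemisystem I₂ q H₂) (hH₃ : IsHemisystem I₃ q H₃)
    (φ : hemiGraph I₁ H₁ ≃g hemiGraph I₂ H₂) (ψ : hemiGraph I₁ H₁ ≃g hemiGraph I₃ H₃) :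
    Extends I₁ I₂ H₁ H₂ φ ∨ Extends I₁ I₃ H₁ H₃ ψ ∨ Extends I₂ I₃ H₂ H₃ (φ.symm.trans ψ) :=
  three I₁ I₂ I₃ q hq hq3 h₁ h₂ h₃ H₁ H₂ H₃ hH₁ hH₂ hH₃ φ ψ

end Pool.Agent.Results.MP_0ea612_co.AtMostTwo
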