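import Pool.Agent.Lib.MP_0ea612_co.Main

/-!
# MP_0ea612_co: isomorphic hemisystem graphs, the triality dichotomy

The definitions used by the statement are in `Pool/Agent/Lib/MP_0ea612_co/Defs.lean`.
-/

set_option autoImplicit false

open Pool.Agent.Lib.MP0ea612

namespace Pool.Agent.Results.MP_0ea612_co.TrialityDichotomy

/-- **Triality dichotomy.**  Let `φ : Γ(H₁) ≅ Γ(H₂)` be an isomorphism between the graphs of
hemisystems of two quadrangles of order `(q^2, q)`, `q ≥ 3` odd.  Either `φ` extends to an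
isomorphism of the quadrangles, or the points can be identified (compatibly with `φ`) in such a way
that the lines of the second quadrangle outside `H₂` are special sets of the first one, and together
with the lines of the first quadrangle outside `H₁` they form a third quadrangle of order
`(q^2, q)`. -/
theorem result {P₁ L₁ P₂ L₂ : Type} (I₁ : P₁ → L₁ → Prop) (I₂ : P₂ → L₂ → Prop)
    (q : ℕ) (hq : Odd q) (hq3 : 3 ≤ q)
    (h₁ : IsGQ I₁ (q ^ 2) q) (h₂ : IsGQ I₂ (q ^ 2) q) (H₁ : Set L₁) (H₂ : Set L₂)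
    (hH₁ : IsHemisystem I₁ q H₁) (hH₂ : IsHemisystem I₂ q H₂)
    (φ : hemiGraph I₁ H₁ ≃g hemiGraph I₂ H₂) :
    (∃ (e : P₁ ≃ P₂) (f : L₁ ≃ L₂), (∀ p l, I₁ p l ↔ I₂ (e p) (f l)) ∧ ∀ l : H₁, f l = φ l) ∨
    ∃ e : P₁ ≃ P₂, (∀ p (l : H₁), I₁ p l ↔ I₂ (e p) (φ l)) ∧
      (∀ m, m ∉ H₂ → IsSpecial I₁ H₁ q {p | I₂ (e p) m}) ∧
      IsGQ (third I₁ H₁ I₂ H₂ e) (q ^ 2) q :=
  FinM.dichotomy FinM.hTR FinM.hGL FinM.hG3 I₁ I₂ q hq hq3 h₁ h₂ H₁ H₂ hH₁ hH₂ φ

end Pool.Agent.Results.MP_0ea612_co.TrialityDichotomy
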